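import Pool.Agent.Q24.MM.R2

/-!
# Job MM-B3

The sum of the inverses of the integers with at most `k` prime factors times the sum of the
inverses of the primes.
-/

set_option autoImplicit false

namespace Pool.Agent.Q24.MM

open Finset Filter Topology Pool.Agent.Q147.MM

theorem card_primeFactors_le {n k : ℕ} (hn : n ∈ Sk k) : n.primeFactors.card ≤ k := by
  refine le_trans ?_ hn.2
  rw [ArithmeticFunction.cardFactors_apply, Nat.primeFactors]
  exact List.toFinset_card_le _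

theorem t_B3 : S_B3 := by
  classical
  intro k x
  set Q : Finset ℕ := (Icc 1 x).filter Nat.Prime with hQ
  set U : Finset (ℕ × ℕ) := upto (Sk k) x ×ˢ Q with hU
  have e1 : T k x * sp x = ∑ y ∈ U, (1 : ℝ) / ((y.1 * y.2 : ℕ) : ℝ) := by
    unfold T sp
    rw [sum_mul_sum, hU, sum_product]
    refine sum_congr rfl fun a _ => sum_congr rfl fun p _ => ?_
    push_cast
    rw [one_div_mul_one_div]
  have hmaps : ∀ y ∈ U, y.1 * y.2 ∈ upto (Sk (k + 1)) (x ^ 2) := by
    intro y hy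
    rw [hU, mem_product, hQ, mem_filter, mem_Icc] at hy
    obtain ⟨ha, ⟨hp1, hpx⟩, hp⟩ := hy
    obtain ⟨⟨ha1, hax⟩, hak⟩ := mem_upto.1 ha
    refine mem_upto.2 ⟨⟨Nat.mul_pos ha1 hp1, ?_⟩, ?_⟩
    · rw [sq]; exact Nat.mul_le_mul hax hpx
    · exact (Sk_mul_prime (by omega) hp).2 hak
  rw [e1, ← sum_fiberwise_of_maps_to hmaps]
  unfold T
  rw [mul_sum]
  refine sum_le_sum fun n hn => ?_
  obtain ⟨⟨hn1, _⟩, hnk⟩ := mem_upto.1 hn
  have e2 : ∑ y ∈ U.filter (fun y => y.1 * y.2 = n), (1 : ℝ) / ((y.1 * y.2 : ℕ) : ℝ) =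
      ((U.filter (fun y => y.1 * y.2 = n)).card : ℝ) * (1 / (n : ℝ)) := by
    rw [← nsmul_eq_mul, ← sum_const]
    refine sum_congr rfl fun y hy => ?_
    rw [(mem_filter.1 hy).2]
  rw [e2]
  refine mul_le_mul_of_nonneg_right ?_ (by positivity)
  have hc : (U.filter (fun y => y.1 * y.2 = n)).card ≤ n.primeFactors.card := by
    refine card_le_card_of_injOn (fun y => y.2) ?_ ?_
    · intro y hy
      rw [mem_coe, mem_filter, hU, mem_product, hQ, mem_filter] at hy
      obtain ⟨⟨_, _, hp⟩, he⟩ := hy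
      rw [mem_coe, Nat.mem_primeFactors]
      exact ⟨hp, ⟨y.1, by rw [← he, mul_comm]⟩, by omega⟩
    · intro y hy w hw hyw
      rw [mem_coe, mem_filter, hU, mem_product, hQ, mem_filter] at hy hw
      obtain ⟨⟨_, _, hp⟩, he⟩ := hy
      obtain ⟨⟨_, _, hp'⟩, he'⟩ := hw
      have h2 : y.2 = w.2 := hyw
      have h1 : y.1 = w.1 := by
        rw [← he', ← h2] at he
        exact Nat.eq_of_mul_eq_mul_right hp.pos he
      exact Prod.ext h1 h2
  have h3 := le_trans hc (card_primeFactors_le hnk)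
  have h4 : ((U.filter (fun y => y.1 * y.2 = n)).card : ℝ) ≤ ((k + 1 : ℕ) : ℝ) := by
    exact_mod_cast h3
  push_cast at h4
  exact h4

end Pool.Agent.Q24.MM
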