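import Pool.Agent.Q24.MM.R2

/-!
# Job MM-B4

Three error terms which are negligible against the number of integers with at most `k + 1` prime
factors.
-/

set_option autoImplicit false

namespace Pool.Agent.Q24.MM

open Finset Filter Topology Pool.Agent.Q147.MM

theorem Sk_mono {k l : ℕ} (h : k ≤ l) : Sk k ⊆ Sk l := fun _ hn => ⟨hn.1, hn.2.trans h⟩

theorem upto_mono {A B : Set ℕ} (h : A ⊆ B) (N : ℕ) : upto A N ⊆ upto B N := fun a ha => by
  obtain ⟨h1, h2⟩ := mem_upto.1 ha
  exact mem_upto.2 ⟨h1, h h2⟩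

theorem T_mono_k {k l : ℕ} (h : k ≤ l) (x : ℕ) : T k x ≤ T l x :=
  sum_le_sum_of_subset_of_nonneg (upto_mono (Sk_mono h) x) fun _ _ _ => by positivity

theorem one_mem_Sk (k : ℕ) : 1 ∈ Sk k := ⟨one_ne_zero, by simp⟩

theorem one_le_T {k x : ℕ} (hx : 1 ≤ x) : 1 ≤ T k x := by
  have h : (1 : ℕ) ∈ upto (Sk k) x := mem_upto.2 ⟨⟨le_rfl, hx⟩, one_mem_Sk k⟩
  have h2 := single_le_sum (f := fun m : ℕ => (1 : ℝ) / m) (fun _ _ => by positivity) h
  simpa [T] using h2

theorem primeCounting_le_cnt (k N : ℕ) : Nat.primeCounting N ≤ cnt (Sk (k + 1)) N := by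
  rw [primeCounting_eq]
  refine card_le_card fun p hp => ?_
  rw [mem_filter, mem_range] at hp
  refine mem_upto.2 ⟨⟨hp.2.one_lt.le, by omega⟩, hp.2.ne_zero, ?_⟩
  rw [ArithmeticFunction.cardFactors_apply_prime hp.2]
  omega

theorem zz_sq_le (N : ℕ) : ((zz N : ℕ) : ℝ) ^ 2 ≤ (N : ℝ) / Real.log N ^ 2 := by
  have h0 : 0 ≤ √(N : ℝ) / Real.log N :=
    div_nonneg (Real.sqrt_nonneg _) (Real.log_natCast_nonneg _)
  have h1 : ((zz N : ℕ) : ℝ) ≤ √(N : ℝ) / Real.log N := Nat.floor_le h0
  calc ((zz N : ℕ) : ℝ) ^ 2 ≤ (√(N : ℝ) / Real.log N) ^ 2 := by gcongr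
    _ = (N : ℝ) / Real.log N ^ 2 := by
        rw [div_pow, Real.sq_sqrt (Nat.cast_nonneg _)]

theorem t_B4 : S_B4 := by
  rintro ⟨c0, C0, hc0, hC0, hcheb⟩ hC1 hR1 hD3
  have hlogN : Tendsto (fun N : ℕ => Real.log (N : ℝ)) atTop atTop :=
    Real.tendsto_log_atTop.comp tendsto_natCast_atTop_atTop
  refine ⟨fun k => ?_, fun k hk => ?_, fun k hk => ?_⟩
  · -- the square of `zz N`
    have hlim : Tendsto (fun N : ℕ => c0⁻¹ * (Real.log (N : ℝ))⁻¹) atTop (𝓝 0) := by
      have := (tendsto_inv_atTop_zero.comp hlogN).const_mul c0⁻¹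
      simpa using this
    refine squeeze_zero' (Eventually.of_forall fun N => by positivity) ?_ hlim
    filter_upwards [eventually_ge_atTop 2] with N hN
    have hl : 0 < Real.log (N : ℝ) := Real.log_pos (by exact_mod_cast (by omega : 1 < N))
    have hNpos : (0 : ℝ) < N := by exact_mod_cast (by omega : 0 < N)
    have hcnt : c0 * (N / Real.log N) ≤ (cnt (Sk (k + 1)) N : ℝ) :=
      le_trans (hcheb N hN).1 (by exact_mod_cast primeCounting_le_cnt k N)
    have hpos : 0 < c0 * (N / Real.log N) := by positivity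
    calc ((zz N : ℕ) : ℝ) ^ 2 / (cnt (Sk (k + 1)) N : ℝ)
        ≤ ((N : ℝ) / Real.log N ^ 2) / (c0 * (N / Real.log N)) := by
          have := zz_sq_le N
          gcongr
      _ = c0⁻¹ * (Real.log (N : ℝ))⁻¹ := by
          field_simp
  · -- the bad integers
    obtain ⟨k, rfl⟩ : ∃ l, k = l + 1 := ⟨k - 1, by omega⟩
    obtain ⟨c, hc, N1, h1⟩ := hC1 (k + 1)
    obtain ⟨C, hC, N2, h2⟩ := hR1 k
    have hlim : Tendsto (fun N : ℕ => C / c * (T k N / T (k + 1) N)) atTop (𝓝 0) := by
      have := (hD3 k).const_mul (C / c)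
      simpa using this
    refine squeeze_zero' (Eventually.of_forall fun N => by positivity) ?_ hlim
    filter_upwards [eventually_ge_atTop 2, eventually_ge_atTop N1, eventually_ge_atTop N2]
      with N hN hN1 hN2
    have hl : 0 < Real.log (N : ℝ) := Real.log_pos (by exact_mod_cast (by omega : 1 < N))
    have hNpos : (0 : ℝ) < N := by exact_mod_cast (by omega : 0 < N)
    have hT : 1 ≤ T (k + 1) N := one_le_T (by omega)
    have hT0 : 1 ≤ T k N := one_le_T (by omega)
    have e1 := h1 N hN1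
    have e2 := h2 N hN2
    calc ((Bad (k + 1 + 1) N).card : ℝ) / (cnt (Sk (k + 1 + 1)) N : ℝ)
        ≤ (C * (N / Real.log N) * T k N) / (c * (N / Real.log N) * T (k + 1) N) := by
          have : 0 < T (k + 1) N := by linarith
          have : 0 < T k N := by linarith
          gcongr
      _ = C / c * (T k N / T (k + 1) N) := by
          have : T (k + 1) N ≠ 0 := by linarith
          field_simp
  · -- the primes
    obtain ⟨c, hc, N1, h1⟩ := hC1 k
    have hlim : Tendsto (fun N : ℕ => C0 / c * (T 0 N / T 1 N)) atTop (𝓝 0) := by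
      have := (hD3 0).const_mul (C0 / c)
      simpa using this
    refine squeeze_zero' (Eventually.of_forall fun N => by positivity) ?_ hlim
    filter_upwards [eventually_ge_atTop 2, eventually_ge_atTop N1] with N hN hN1
    have hl : 0 < Real.log (N : ℝ) := Real.log_pos (by exact_mod_cast (by omega : 1 < N))
    have hNpos : (0 : ℝ) < N := by exact_mod_cast (by omega : 0 < N)
    have hT1 : 1 ≤ T 1 N := one_le_T (by omega)
    have hT1k : T 1 N ≤ T k N := T_mono_k hk N
    have hT0 : 1 ≤ T 0 N := one_le_T (by omega)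
    have e1 := h1 N hN1
    have e2 := (hcheb N hN).2
    have hT1p : 0 < T 1 N := by linarith
    have hTkp : 0 < T k N := by linarith
    calc (Nat.primeCounting N : ℝ) / (cnt (Sk (k + 1)) N : ℝ)
        ≤ (C0 * (N / Real.log N)) / (c * (N / Real.log N) * T k N) := by
          gcongr
      _ = C0 / c * (1 / T k N) := by
          field_simp
      _ ≤ C0 / c * (T 0 N / T 1 N) := by
          gcongr

end Pool.Agent.Q24.MM
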