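import Pool.Agent.Q147.MM.Stm
import Pool.Agent.Erdos456.Mertens

/-!
# Job MM-M1

Short sums of the inverses of the primes.
-/

set_option autoImplicit false

namespace Pool.Agent.Q24.MM

open Finset Filter Topology Pool.Agent.Q147.MM

theorem sp_nonneg (n : ℕ) : 0 ≤ sp n := sum_nonneg fun _ _ => by positivity

theorem t_M1 : S_M1 := by
  classical
  intro j M hj
  obtain ⟨C0, hC0⟩ := Pool.Agent.Erdos456.Mert.mertens_inv
  have hC0' : 0 ≤ C0 := le_trans (abs_nonneg _) (hC0 3 le_rfl)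
  have hlog : 0 ≤ Real.log ((j * M : ℕ) : ℝ) := Real.log_natCast_nonneg _
  have hs2 := sp_nonneg (2 ^ (j * M))
  refine ⟨1 + Real.log ((j * M : ℕ) : ℝ) + 2 * C0 + sp (2 ^ (j * M)), by positivity, ?_⟩
  intro x hx
  -- the largest integer `w` with `w ^ j ≤ x`
  set w : ℕ := Nat.findGreatest (fun w => w ^ j ≤ x) x with hw
  have hw1 : 1 ≤ w := Nat.le_findGreatest hx (by simpa using hx)
  have hwx : w ^ j ≤ x := Nat.findGreatest_spec (P := fun w => w ^ j ≤ x) hx (by simpa using hx)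
  have hxw : x < (w + 1) ^ j := by
    by_contra hcon
    push Not at hcon
    have h1 : w + 1 ≤ x := le_trans (Nat.le_self_pow (by omega) _) hcon
    have h2 : w + 1 ≤ w := Nat.le_findGreatest h1 hcon
    omega
  set W : ℕ := w + 1 with hW
  have hxM : x ^ M ≤ W ^ (j * M) := by
    rw [pow_mul]
    exact Nat.pow_le_pow_left hxw.le M
  have hprime : ∀ p : ℕ, x < p ^ j → W ≤ p := by
    intro p hp
    by_contra hcon
    push Not at hcon
    have h1 : p ≤ w := by omega
    have h2 : p ^ j ≤ w ^ j := Nat.pow_le_pow_left h1 j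
    omega
  rcases Nat.eq_zero_or_pos (j * M) with h0 | hpos
  · have hM : M = 0 := by
      rcases Nat.mul_eq_zero.1 h0 with h | h
      · omega
      · exact h
    subst hM
    have he : (Icc 1 (x ^ 0)).filter (fun p => Nat.Prime p ∧ x < p ^ j) = ∅ := by
      apply filter_eq_empty_iff.2
      intro p hp hpp
      rw [pow_zero, Icc_self, mem_singleton] at hp
      subst hp
      exact Nat.not_prime_one hpp.1
    rw [he, sum_empty]
    positivity
  rcases Nat.lt_or_ge W 3 with h3 | h3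
  · have hW2 : W = 2 := by omega
    have hle : ∑ p ∈ (Icc 1 (x ^ M)).filter (fun p => Nat.Prime p ∧ x < p ^ j), (1 : ℝ) / p
        ≤ sp (2 ^ (j * M)) := by
      refine sum_le_sum_of_subset_of_nonneg ?_ fun _ _ _ => by positivity
      intro p hp
      rw [mem_filter, mem_Icc] at hp
      obtain ⟨⟨hp1, hp2⟩, hpp, _⟩ := hp
      rw [mem_filter, mem_Icc]
      refine ⟨⟨hp1, ?_⟩, hpp⟩
      rw [hW2] at hxM
      omega
    linarith
  · set A : Finset ℕ := (Icc 1 (W ^ (j * M))).filter Nat.Prime with hA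
    set B : Finset ℕ := (Icc 1 W).filter Nat.Prime with hB
    have hWle : W ≤ W ^ (j * M) := Nat.le_self_pow (by omega) _
    have hBA : B ⊆ A := by
      intro p hp
      rw [hB, mem_filter, mem_Icc] at hp
      rw [hA, mem_filter, mem_Icc]
      exact ⟨⟨hp.1.1, by omega⟩, hp.2⟩
    have hsub : (Icc 1 (x ^ M)).filter (fun p => Nat.Prime p ∧ x < p ^ j) ⊆ {W} ∪ (A \ B) := by
      intro p hp
      rw [mem_filter, mem_Icc] at hp
      obtain ⟨⟨hp1, hp2⟩, hpp, hpx⟩ := hp
      have hWp := hprime p hpx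
      rcases Nat.eq_or_lt_of_le hWp with h | h
      · exact mem_union_left _ (mem_singleton.2 h.symm)
      · refine mem_union_right _ (mem_sdiff.2 ⟨?_, ?_⟩)
        · rw [hA, mem_filter, mem_Icc]
          exact ⟨⟨hp1, by omega⟩, hpp⟩
        · intro hpB
          rw [hB, mem_filter, mem_Icc] at hpB
          omega
    have h1 : ∑ p ∈ (Icc 1 (x ^ M)).filter (fun p => Nat.Prime p ∧ x < p ^ j), (1 : ℝ) / p
        ≤ ∑ p ∈ {W} ∪ (A \ B), (1 : ℝ) / p :=
      sum_le_sum_of_subset_of_nonneg hsub fun _ _ _ => by positivity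
    have h2 : ∑ p ∈ {W} ∪ (A \ B), (1 : ℝ) / p ≤ 1 / (W : ℝ) + ∑ p ∈ A \ B, (1 : ℝ) / p := by
      have := sum_union_inter (s₁ := {W}) (s₂ := A \ B) (f := fun p : ℕ => (1 : ℝ) / p)
      rw [sum_singleton] at this
      have hnn : 0 ≤ ∑ p ∈ {W} ∩ (A \ B), (1 : ℝ) / p := sum_nonneg fun _ _ => by positivity
      linarith
    have h3' : ∑ p ∈ A \ B, (1 : ℝ) / p + ∑ p ∈ B, (1 : ℝ) / p = ∑ p ∈ A, (1 : ℝ) / p :=
      sum_sdiff hBA
    have h4 : 1 / (W : ℝ) ≤ 1 := by
      rw [div_le_one (by positivity)]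
      exact_mod_cast (by omega : 1 ≤ W)
    have h5 := abs_le.1 (hC0 W h3)
    have h6 := abs_le.1 (hC0 (W ^ (j * M)) (le_trans h3 hWle))
    have hlW : 0 < Real.log (W : ℝ) := Real.log_pos (by exact_mod_cast (by omega : 1 < W))
    have h7 : Real.log (Real.log ((W ^ (j * M) : ℕ) : ℝ)) =
        Real.log ((j * M : ℕ) : ℝ) + Real.log (Real.log (W : ℝ)) := by
      rw [Nat.cast_pow, Real.log_pow, Real.log_mul _ hlW.ne']
      exact_mod_cast hpos.ne'
    rw [h7] at h6
    linarith [h5.1, h5.2, h6.1, h6.2]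

end Pool.Agent.Q24.MM
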