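import Pool.Agent.Q35.MM.Stm

set_option autoImplicit false

/-!
# Job MK of project MM: integral representatives of projective points with small conjugates
-/

namespace Pool.Agent.Q24.MM

open NumberField NumberField.mixedEmbedding NumberField.InfinitePlace Module MeasureTheory ZSpan
open scoped ENNReal NNReal nonZeroDivisors

section

variable (K : Type) [Field K] [NumberField K]

open scoped Classical in
/-- the constant in the bound of Minkowski -/
noncomputable def V0 : ℝ≥0∞ :=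
  volume (fundamentalDomain (latticeBasis K)) * (2 : ℝ≥0∞) ^ (finrank ℝ (mixedSpace K))

lemma V0_lt_top : V0 K < ⊤ := by
  classical
  exact ENNReal.mul_lt_top (fundamentalDomain_isBounded _).measure_lt_top <|
    ENNReal.pow_lt_top ENNReal.ofNat_lt_top

lemma bound_eq (I : (FractionalIdeal (𝓞 K)⁰ K)ˣ) :
    minkowskiBound K I = .ofReal (FractionalIdeal.absNorm I.1) * V0 K := by
  unfold minkowskiBound V0
  rw [volume_fundamentalDomain_fractionalIdealLatticeBasis, mul_assoc]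

theorem mink : ∃ c : ℕ, 1 ≤ c ∧ ∀ (I : (FractionalIdeal (𝓞 K)⁰ K)ˣ) (f : InfinitePlace K → ℝ≥0),
    ((FractionalIdeal.absNorm I.1 : ℚ) : ℝ) * (c : ℝ) ^ finrank ℚ K ≤ ∏ w, (f w : ℝ) ^ mult w →
      ∃ a ∈ (I : FractionalIdeal (𝓞 K)⁰ K), a ≠ 0 ∧ ∀ w : InfinitePlace K, w a < f w := by
  classical
  obtain ⟨c, hc⟩ := exists_nat_gt (V0 K).toReal
  have hc0 : (0 : ℝ) < c := lt_of_le_of_lt ENNReal.toReal_nonneg hc
  have hc1 : 1 ≤ c := by exact_mod_cast hc0
  refine ⟨c, hc1, fun I f hf => ?_⟩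
  apply exists_ne_zero_mem_ideal_lt K I
  rw [bound_eq, convexBodyLT_volume]
  have hN : 0 < ((FractionalIdeal.absNorm I.1 : ℚ) : ℝ) := by
    have h1 : (FractionalIdeal.absNorm I.1 : ℚ) ≠ 0 := by
      rw [Ne, FractionalIdeal.absNorm_eq_zero_iff]
      exact I.ne_zero
    have h2 : 0 ≤ (FractionalIdeal.absNorm I.1 : ℚ) := FractionalIdeal.absNorm_nonneg _
    exact_mod_cast lt_of_le_of_ne h2 h1.symm
  have h1 : ENNReal.ofReal ((FractionalIdeal.absNorm I.1 : ℚ) : ℝ) * V0 K <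
      ENNReal.ofReal (((FractionalIdeal.absNorm I.1 : ℚ) : ℝ) * c) := by
    rw [ENNReal.ofReal_mul hN.le]
    refine ENNReal.mul_lt_mul_right ?_ ENNReal.ofReal_ne_top ?_
    · exact (ENNReal.ofReal_pos.2 hN).ne'
    · rwa [ENNReal.lt_ofReal_iff_toReal_lt (V0_lt_top K).ne]
  refine h1.trans_le ?_
  have h2 : ((FractionalIdeal.absNorm I.1 : ℚ) : ℝ) * c ≤ ∏ w, (f w : ℝ) ^ mult w := by
    refine le_trans (mul_le_mul_of_nonneg_left ?_ hN.le) hf
    have h3 : (1 : ℝ) ≤ c := by exact_mod_cast hc1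
    exact le_self_pow₀ h3 (finrank_pos (R := ℚ) (M := K)).ne'
  have h3 : ENNReal.ofReal (∏ w, (f w : ℝ) ^ mult w) = ((∏ w, (f w) ^ (mult w) : ℝ≥0) : ℝ≥0∞) := by
    rw [← ENNReal.ofReal_coe_nnreal]
    congr 1
    push_cast
    rfl
  refine (ENNReal.ofReal_le_ofReal h2).trans ?_
  rw [h3]
  have h4 : (1 : ℝ≥0∞) ≤ (convexBodyLTFactor K : ℝ≥0∞) := by
    exact_mod_cast one_le_convexBodyLTFactor K
  calc ((∏ w, (f w) ^ (mult w) : ℝ≥0) : ℝ≥0∞) = 1 * ((∏ w, (f w) ^ (mult w) : ℝ≥0) : ℝ≥0∞) := (one_mul _).symm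
    _ ≤ _ := by gcongr

end

/-- **representatives of projective points** -/
theorem mk : Pool.Agent.Q35.MM.S_MK := by
  intro K _ _
  classical
  obtain ⟨c, hc, hM⟩ := mink K
  refine ⟨c, hc, fun m x hx B hB hH => ?_⟩
  obtain ⟨b, hb⟩ := IsLocalization.exist_integer_multiples_of_finite (𝓞 K)⁰ x
  choose y hy using hb
  have hb0 : ((b : 𝓞 K) : K) ≠ 0 := by
    have := nonZeroDivisors.coe_ne_zero b
    exact RingOfIntegers.coe_ne_zero_iff.2 this
  have hy' : ∀ i, (y i : K) = ((b : 𝓞 K) : K) * x i := by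
    intro i
    have := hy i
    rw [Algebra.smul_def] at this
    exact this
  have hyx : (fun i => (y i : K)) = ((b : 𝓞 K) : K) • x := by
    funext i
    exact hy' i
  obtain ⟨i₀, hi₀⟩ := Function.ne_iff.mp hx
  have hyi : (y i₀ : K) ≠ 0 := by
    rw [hy']
    exact mul_ne_zero hb0 hi₀
  have hyi' : y i₀ ≠ 0 := RingOfIntegers.coe_ne_zero_iff.1 hyi
  have hy0 : y ≠ 0 := Function.ne_iff.mpr ⟨i₀, hyi'⟩
  have hyK0 : (fun i => (y i : K)) ≠ 0 := Function.ne_iff.mpr ⟨i₀, hyi⟩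
  have hH2 : Height.mulHeight (fun i => (y i : K)) ≤ (B : ℝ) ^ Pool.Agent.Q35.MM.dg K := by
    rw [hyx, Height.mulHeight_smul_eq_mulHeight _ hb0]
    exact hH
  rw [NumberField.mulHeight_eq hyK0] at hH2
  have hN := absNorm_mul_finprod_finitePlace_eq_one hy0
  set I : Ideal (𝓞 K) := Ideal.span (Set.range y) with hI
  set P : ℝ := ∏ᶠ v : FinitePlace K, ⨆ i, v (y i : K) with hP
  set M : InfinitePlace K → ℝ := fun v => ⨆ i, v (y i : K) with hMd
  have hMle : ∀ (v : InfinitePlace K) i, v (y i : K) ≤ M v := fun v i =>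
    le_ciSup (f := fun i => v (y i : K)) (Set.finite_range _).bddAbove i
  have hM0 : ∀ v, 0 < M v := fun v => lt_of_lt_of_le (v.pos_iff.2 hyi) (hMle v i₀)
  have hI0 : I ≠ ⊥ := by
    intro h
    rw [hI, Ideal.span_eq_bot] at h
    exact hyi' (h _ ⟨i₀, rfl⟩)
  have hNI : 0 < (I.absNorm : ℝ) := by
    have : I.absNorm ≠ 0 := by rwa [Ne, Ideal.absNorm_eq_zero_iff]
    exact_mod_cast Nat.pos_of_ne_zero this
  have hprod : ∏ v : InfinitePlace K, M v ^ v.mult ≤ I.absNorm * (B : ℝ) ^ finrank ℚ K := by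
    have h1 : ∏ v : InfinitePlace K, M v ^ v.mult = I.absNorm * ((∏ v : InfinitePlace K, M v ^ v.mult) * P) := by
      calc ∏ v : InfinitePlace K, M v ^ v.mult = (I.absNorm * P) * ∏ v : InfinitePlace K, M v ^ v.mult := by
            rw [hN, one_mul]
        _ = _ := by ring
    rw [h1]
    exact mul_le_mul_of_nonneg_left hH2 hNI.le
  have hprod0 : 0 < ∏ v : InfinitePlace K, M v ^ v.mult := Finset.prod_pos fun v _ => pow_pos (hM0 v) _
  have hIF : (I : FractionalIdeal (𝓞 K)⁰ K) ≠ 0 := FractionalIdeal.coeIdeal_ne_zero.2 hI0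
  set J : (FractionalIdeal (𝓞 K)⁰ K)ˣ := (Units.mk0 (I : FractionalIdeal (𝓞 K)⁰ K) hIF)⁻¹ with hJ
  have hJv : (J : FractionalIdeal (𝓞 K)⁰ K) = (I : FractionalIdeal (𝓞 K)⁰ K)⁻¹ := by
    rw [hJ, Units.val_inv_eq_inv_val, Units.val_mk0]
  have hBp : (0 : ℝ) < B := by exact_mod_cast hB
  have hcp : (0 : ℝ) < c := by exact_mod_cast hc
  have hcon := hM J (fun w => Real.toNNReal (c * B / M w)) (by
    have e1 : ∀ w : InfinitePlace K, ((Real.toNNReal (c * B / M w) : ℝ≥0) : ℝ) = c * B / M w := fun w =>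
      Real.coe_toNNReal _ (by have := hM0 w; positivity)
    simp only [e1, div_pow, Finset.prod_div_distrib]
    rw [Finset.prod_pow_eq_pow_sum, InfinitePlace.sum_mult_eq, hJv, map_inv₀, FractionalIdeal.coeIdeal_absNorm,
      le_div_iff₀ hprod0]
    push_cast
    calc ((I.absNorm : ℝ))⁻¹ * (c : ℝ) ^ finrank ℚ K * ∏ v : InfinitePlace K, M v ^ v.mult ≤
        ((I.absNorm : ℝ))⁻¹ * (c : ℝ) ^ finrank ℚ K * (I.absNorm * (B : ℝ) ^ finrank ℚ K) :=
          mul_le_mul_of_nonneg_left hprod (by positivity)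
      _ = (c * B : ℝ) ^ finrank ℚ K := by
          rw [mul_pow]
          field_simp)
  obtain ⟨t, htJ, ht0, htw⟩ := hcon
  rw [hJv, FractionalIdeal.mem_inv_iff hIF] at htJ
  have hint : ∀ i, ∃ z : 𝓞 K, (z : K) = t * y i := by
    intro i
    have h1 := htJ (y i : K) (FractionalIdeal.mem_coeIdeal_of_mem _ (Ideal.subset_span ⟨i, rfl⟩))
    rw [FractionalIdeal.mem_one_iff] at h1
    exact h1
  have e : ∀ a, ((t * ((b : 𝓞 K) : K)) • x) a = t * y a := by
    intro a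
    rw [hy', Pi.smul_apply, smul_eq_mul, mul_assoc]
  refine ⟨t * ((b : 𝓞 K) : K), mul_ne_zero ht0 hb0, Pool.Agent.Q35.MM.mem_bx.2 fun a => ?_⟩
  rw [e]
  constructor
  · obtain ⟨z, hz⟩ := hint a
    rw [← hz]
    exact z.isIntegral_coe
  · intro φ
    have h1 : ‖φ (t * y a)‖ = (InfinitePlace.mk φ) (t * y a) := rfl
    rw [h1, map_mul]
    set w := InfinitePlace.mk φ with hw
    have h2 := (htw w).le
    rw [Real.coe_toNNReal _ (by have := hM0 w; positivity)] at h2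
    calc w t * w (y a : K) ≤ (c * B / M w) * M w :=
          mul_le_mul h2 (hMle w a) (apply_nonneg _ _) (by have := hM0 w; positivity)
      _ = ((c * B : ℕ) : ℝ) := by
          rw [div_mul_cancel₀ _ (hM0 w).ne']
          push_cast
          rfl

end Pool.Agent.Q24.MM
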