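import Pool.Agent.Q24.MM.B4

/-!
# Job MM-B5

If the sets `A k` contain the products of their elements with primes, up to few exceptions, then
almost all integers with at most `k` prime factors are in `A k`.
-/

set_option autoImplicit false

namespace Pool.Agent.Q24.MM

open Finset Filter Topology Pool.Agent.Q147.MM

theorem cnt_le_self (B : Set ℕ) (N : ℕ) : cnt B N ≤ N := by
  classical
  unfold cnt upto
  refine le_trans (card_filter_le _ _) ?_
  simp

theorem cnt_mono {A B : Set ℕ} (h : A ⊆ B) (N : ℕ) : cnt A N ≤ cnt B N :=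
  card_le_card (upto_mono h N)

theorem cnt_Sk_pos {k N : ℕ} (hN : 1 ≤ N) : 0 < cnt (Sk k) N :=
  card_pos.2 ⟨1, mem_upto.2 ⟨⟨le_rfl, hN⟩, one_mem_Sk k⟩⟩

theorem upto_split {A S : Set ℕ} (h : A ⊆ S) (N : ℕ) :
    ∃ _ : Disjoint (upto A N) (upto (S \ A) N), upto S N =
      (upto A N).disjUnion (upto (S \ A) N) ‹_› := by
  classical
  have hd : Disjoint (upto A N) (upto (S \ A) N) := by
    rw [disjoint_left]
    intro a ha hb
    exact (mem_upto.1 hb).2.2 (mem_upto.1 ha).2
  refine ⟨hd, ?_⟩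
  ext a
  rw [mem_disjUnion, mem_upto, mem_upto, mem_upto]
  constructor
  · rintro ⟨h1, h2⟩
    by_cases h3 : a ∈ A
    · exact Or.inl ⟨h1, h3⟩
    · exact Or.inr ⟨h1, h2, h3⟩
  · rintro (⟨h1, h2⟩ | ⟨h1, h2, _⟩)
    · exact ⟨h1, h h2⟩
    · exact ⟨h1, h2⟩

theorem cnt_split {A S : Set ℕ} (h : A ⊆ S) (N : ℕ) : cnt S N = cnt A N + cnt (S \ A) N := by
  obtain ⟨hd, he⟩ := upto_split h N
  unfold cnt
  rw [he, card_disjUnion]

theorem sum_split {A S : Set ℕ} (h : A ⊆ S) (N : ℕ) (f : ℕ → ℝ) :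
    ∑ a ∈ upto S N, f a = ∑ a ∈ upto A N, f a + ∑ a ∈ upto (S \ A) N, f a := by
  obtain ⟨hd, he⟩ := upto_split h N
  rw [he, sum_disjUnion]

theorem t_B5 : S_B5 := by
  classical
  intro hB1 hR2 hE1 hE2 hE3 A hA hA1 hsum k hk
  induction k, hk using Nat.le_induction with
  | base =>
    rw [hA1]
    refine tendsto_const_nhds.congr' ?_
    filter_upwards [eventually_ge_atTop 1] with N hN
    have h := cnt_Sk_pos (k := 1) hN
    rw [div_self]
    exact_mod_cast h.ne'
  | succ k hk ih =>
    refine tendsto_order.2 ⟨fun a ha => ?_, fun a ha => ?_⟩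
    · set ε : ℝ := (1 - a) / 2 with hε
      have hεp : 0 < ε := by rw [hε]; linarith
      -- the exceptional set has few elements
      obtain ⟨Y, hY⟩ := eventually_atTop.1 ((tendsto_order.1 ih).1 (1 - ε) (by linarith))
      set M : Set ℕ := Sk k \ A k with hM
      have hMb : ∀ y, 1 ≤ y → (cnt M y : ℝ) ≤ ε * cnt (Sk k) y + Y := by
        intro y hy
        have hs : (0 : ℝ) < cnt (Sk k) y := by exact_mod_cast cnt_Sk_pos hy
        have hsp : (cnt (Sk k) y : ℝ) = cnt (A k) y + cnt M y := by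
          exact_mod_cast cnt_split (hA k) y
        rcases le_or_gt Y y with h | h
        · have h1 := hY y h
          rw [lt_div_iff₀ hs] at h1
          have h2 : (0 : ℝ) ≤ Y := Nat.cast_nonneg _
          nlinarith
        · have h1 : (cnt M y : ℝ) ≤ y := by exact_mod_cast cnt_le_self M y
          have h2 : (y : ℝ) ≤ Y := by exact_mod_cast h.le
          have h3 : 0 ≤ ε * cnt (Sk k) y := by positivity
          linarith
      -- the error term
      have herr : Tendsto (fun N : ℕ =>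
          (Nat.primeCounting N : ℝ) / cnt (Sk (k + 1)) N +
            ((Bad (k + 1) N).card : ℝ) / cnt (Sk (k + 1)) N +
            (Y : ℝ) * ((Nat.primeCounting N : ℝ) / cnt (Sk (k + 1)) N) +
            ((zz N : ℝ) ^ 2) / cnt (Sk (k + 1)) N) atTop (𝓝 0) := by
        have := (((hE3 k hk).add (hE2 k hk)).add ((hE3 k hk).const_mul (Y : ℝ))).add (hE1 k)
        simpa using this
      filter_upwards [(tendsto_order.1 herr).2 ε hεp, eventually_ge_atTop 2] with N hN hN2
      set f : ℕ → ℝ := fun a => (Nat.primeCounting (N / a) : ℝ) with hf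
      set D : ℝ := (cnt (Sk (k + 1)) N : ℝ) with hD
      have hDp : 0 < D := by
        rw [hD]
        exact_mod_cast cnt_Sk_pos (by omega)
      have hanti : ∀ y, 1 ≤ y → y < zz N → f (y + 1) ≤ f y := by
        intro y hy _
        have h1 : N / (y + 1) ≤ N / y := Nat.div_le_div_left (by omega) (by omega)
        simp only [hf]
        exact_mod_cast Nat.monotone_primeCounting h1
      have b1 := hB1 M (Sk k) f ε Y (zz N) (Nat.cast_nonneg _) (Nat.cast_nonneg _)
        (fun y hy _ => hMb y hy) hanti (Nat.cast_nonneg _)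
      have b2 := sum_split (hA k) (zz N) f
      have b3 : ∑ a ∈ upto (A k) (zz N), f a ≤ (cnt (A (k + 1)) N : ℝ) + (zz N : ℝ) ^ 2 := by
        simp only [hf]
        exact_mod_cast hsum k (zz N) N
      have b4 : D ≤ 1 + ∑ a ∈ upto (Sk k) (zz N), f a + ((Bad (k + 1) N).card : ℝ) := by
        simp only [hf, hD]
        exact_mod_cast hR2 k N
      have hf1 : f 1 = (Nat.primeCounting N : ℝ) := by rw [hf]; simp
      rw [hf1] at b1
      have hpi : (1 : ℝ) ≤ (Nat.primeCounting N : ℝ) := by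
        have h1 : Nat.primeCounting 2 ≤ Nat.primeCounting N := Nat.monotone_primeCounting hN2
        have h2 : 1 ≤ Nat.primeCounting 2 := by decide
        exact_mod_cast le_trans h2 h1
      have hBn : (0 : ℝ) ≤ ((Bad (k + 1) N).card : ℝ) := Nat.cast_nonneg _
      have hSn : (0 : ℝ) ≤ ∑ a ∈ upto (Sk k) (zz N), f a :=
        sum_nonneg fun _ _ => Nat.cast_nonneg _
      -- multiply out
      have e1 : (Nat.primeCounting N : ℝ) / D + ((Bad (k + 1) N).card : ℝ) / D +
            (Y : ℝ) * ((Nat.primeCounting N : ℝ) / D) + ((zz N : ℝ) ^ 2) / D =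
          ((Nat.primeCounting N : ℝ) + ((Bad (k + 1) N).card : ℝ) +
            (Y : ℝ) * (Nat.primeCounting N : ℝ) + (zz N : ℝ) ^ 2) / D := by
        field_simp
      rw [e1, div_lt_iff₀ hDp] at hN
      rw [lt_div_iff₀ hDp]
      have hMS : M = Sk k \ A k := rfl
      rw [← hMS] at b2
      -- `cnt (A (k+1)) N ≥ (1 - ε) ∑ f - Y π(N) - z ^ 2`
      have c1 : (1 - ε) * ∑ a ∈ upto (Sk k) (zz N), f a - Y * (Nat.primeCounting N : ℝ) -
          (zz N : ℝ) ^ 2 ≤ (cnt (A (k + 1)) N : ℝ) := by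
        linarith
      -- `(1 - ε) ∑ f ≥ ∑ f - ε (…)`
      have hε1 : a = 1 - 2 * ε := by rw [hε]; ring
      rw [hε1]
      by_cases hcase : ε ≤ 1
      · have c2 : (1 - ε) * (D - 1 - ((Bad (k + 1) N).card : ℝ)) ≤
            (1 - ε) * ∑ a ∈ upto (Sk k) (zz N), f a :=
          mul_le_mul_of_nonneg_left (by linarith) (by linarith)
        nlinarith
      · push Not at hcase
        have c3 : (0 : ℝ) ≤ (cnt (A (k + 1)) N : ℝ) := Nat.cast_nonneg _
        nlinarith
    · refine Eventually.of_forall fun N => ?_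
      refine lt_of_le_of_lt ?_ ha
      refine div_le_one_of_le₀ ?_ (Nat.cast_nonneg _)
      exact_mod_cast cnt_mono (hA (k + 1)) N

end Pool.Agent.Q24.MM
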