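import Pool.Agent.Q147.MM.Stm

/-!
# Job MM-R2

Every integer with at most `k + 1` prime factors which is not `1` and not bad is `a * p` with
`p` prime and `a` small.
-/

set_option autoImplicit false

namespace Pool.Agent.Q24.MM

open Finset Filter Topology Pool.Agent.Q147.MM

theorem primeCounting_eq (n : ℕ) :
    Nat.primeCounting n = ((range (n + 1)).filter Nat.Prime).card := by
  rw [Nat.primeCounting, Nat.primeCounting', Nat.count_eq_card_filter_range]

theorem Sk_mul_prime {k a p : ℕ} (ha : a ≠ 0) (hp : p.Prime) :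
    a * p ∈ Sk (k + 1) ↔ a ∈ Sk k := by
  have h : ArithmeticFunction.cardFactors (a * p) = ArithmeticFunction.cardFactors a + 1 := by
    rw [ArithmeticFunction.cardFactors_mul ha hp.ne_zero,
      ArithmeticFunction.cardFactors_apply_prime hp]
  constructor
  · rintro ⟨_, h2⟩
    refine ⟨ha, ?_⟩
    rw [h] at h2
    omega
  · rintro ⟨_, h2⟩
    refine ⟨mul_ne_zero ha hp.ne_zero, ?_⟩
    rw [h]
    omega

theorem t_R2 : S_R2 := by
  classical
  intro k N
  set P : ℕ → Finset ℕ := fun n => (range (n + 1)).filter Nat.Prime with hP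
  set G : Finset ℕ := ((upto (Sk k) (zz N)).sigma (fun a => P (N / a))).image
    (fun x => x.1 * x.2) with hG
  have hsub : upto (Sk (k + 1)) N ⊆ {1} ∪ G ∪ Bad (k + 1) N := by
    intro n hn
    obtain ⟨⟨h1, hN⟩, hk⟩ := mem_upto.1 hn
    by_cases hn1 : n = 1
    · simp [hn1]
    by_cases hb : ∀ p : ℕ, p.Prime → p ∣ n → zz N < n / p
    · refine mem_union_right _ ?_
      unfold Bad
      exact mem_filter.2 ⟨hn, hn1, hb⟩
    push Not at hb
    obtain ⟨p, hp, ⟨a, rfl⟩, hz⟩ := hb
    refine mem_union_left _ (mem_union_right _ ?_)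
    rw [Nat.mul_div_cancel_left _ hp.pos] at hz
    have ha : a ≠ 0 := by
      rintro rfl
      simp at h1
    rw [hG, mem_image]
    refine ⟨⟨a, p⟩, ?_, mul_comm _ _⟩
    rw [mem_sigma]
    refine ⟨mem_upto.2 ⟨⟨Nat.one_le_iff_ne_zero.2 ha, hz⟩, ?_⟩, ?_⟩
    · rw [mul_comm] at hk
      exact (Sk_mul_prime ha hp).1 hk
    · rw [hP, mem_filter, mem_range]
      refine ⟨?_, hp⟩
      have : p ≤ N / a := (Nat.le_div_iff_mul_le (Nat.pos_of_ne_zero ha)).2 hN
      exact Nat.lt_succ_of_le this
  have hGc : G.card ≤ ∑ a ∈ upto (Sk k) (zz N), Nat.primeCounting (N / a) := by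
    refine le_trans card_image_le ?_
    rw [card_sigma]
    refine le_of_eq (sum_congr rfl fun a _ => ?_)
    rw [primeCounting_eq]
  calc cnt (Sk (k + 1)) N ≤ ({1} ∪ G ∪ Bad (k + 1) N).card := card_le_card hsub
    _ ≤ ({1} ∪ G).card + (Bad (k + 1) N).card := card_union_le _ _
    _ ≤ (1 + G.card) + (Bad (k + 1) N).card := by
        refine Nat.add_le_add_right (le_trans (card_union_le _ _) ?_) _
        simp
    _ ≤ _ := by omega

end Pool.Agent.Q24.MM
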