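import Pool.Agent.Q35.MM.Stm

set_option autoImplicit false

/-!
# Job TB of project MM: the tuples at which the linear forms have a given rank
-/

namespace Pool.Agent.Q24.MM

open Finset Function
open Pool.Agent.Q35.MM

section expand

variable {K : Type} [Field K] {ι : Type} [Fintype ι] [DecidableEq ι] {n : ι → ℕ}

lemma frm_expand (g : Frm K n) (P : Tup K n) :
    g P = ∑ a : (∀ i, Fin (n i + 1)), (∏ i, P i (a i)) * g (fun i => Pi.single (a i) 1) := by
  have h1 : P = fun i => ∑ a : Fin (n i + 1), P i a • (Pi.single a (1 : K) : Fin (n i + 1) → K) := by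
    funext i b
    rw [Finset.sum_apply, Finset.sum_eq_single b]
    · simp
    · intro a _ hab
      rw [Pi.smul_apply, Pi.single_eq_of_ne (Ne.symm hab), smul_zero]
    · intro h
      exact absurd (mem_univ b) h
  conv_lhs => rw [h1]
  rw [MultilinearMap.map_sum]
  refine sum_congr rfl fun a _ => ?_
  rw [MultilinearMap.map_smul_univ, smul_eq_mul]

lemma frm_integral (g : Frm K n) (P : Tup K n)
    (hg : ∀ a : ∀ i, Fin (n i + 1), IsIntegral ℤ (g fun i => Pi.single (a i) 1))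
    (hP : ∀ i a, IsIntegral ℤ (P i a)) : IsIntegral ℤ (g P) := by
  rw [frm_expand]
  refine IsIntegral.sum _ fun a _ => IsIntegral.mul (IsIntegral.prod _ fun i _ => hP i _) (hg a)

lemma frm_bound (g : Frm K n) (P : Tup K n) (φ : K →+* ℂ) (M : ℝ) (c : ι → ℝ) (hM : 0 ≤ M)
    (hg : ∀ a : ∀ i, Fin (n i + 1), ‖φ (g fun i => Pi.single (a i) 1)‖ ≤ M)
    (hP : ∀ i a, ‖φ (P i a)‖ ≤ c i) :
    ‖φ (g P)‖ ≤ (Fintype.card (∀ i, Fin (n i + 1)) : ℝ) * M * ∏ i, c i := by
  rw [frm_expand, map_sum]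
  refine (norm_sum_le _ _).trans ?_
  have h1 : ∀ a ∈ (univ : Finset (∀ i, Fin (n i + 1))),
      ‖φ ((∏ i, P i (a i)) * g (fun i => Pi.single (a i) 1))‖ ≤ M * ∏ i, c i := by
    intro a _
    rw [map_mul, norm_mul, map_prod, norm_prod, mul_comm]
    refine mul_le_mul (hg a) ?_ (by positivity) hM
    exact prod_le_prod (fun i _ => norm_nonneg _) fun i _ => hP i _
  refine (sum_le_sum h1).trans (le_of_eq ?_)
  rw [sum_const, card_univ, nsmul_eq_mul, mul_assoc]

end expand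

section

variable {K : Type} [Field K] [NumberField K] {ι : Type} [Fintype ι] [DecidableEq ι] {n : ι → ℕ}

lemma mem_QQ {j : ι} {b : ι → ℕ} {P : Tup K n} (h : P ∈ QQ K n j b) {l : ι} (hl : l ≠ j)
    (a : Fin (n l + 1)) : P l a ∈ S1 K (b l) := by
  classical
  unfold QQ at h
  have h1 := Fintype.mem_piFinset.1 h l
  rw [if_neg hl, mem_filter] at h1
  exact mem_bx.1 h1.1 a

lemma coef_mem {k : ℕ} (f : Fin k → Frm K n)
    (hf : ∀ t, ∀ a : ∀ i, Fin (n i + 1), IsIntegral ℤ (f t fun i => Pi.single (a i) 1)) :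
    ∃ cf : ℕ, 1 ≤ cf ∧ ∀ (t : Fin k) (j : ι) (b : ι → ℕ) (P : Tup K n), P ∈ QQ K n j b →
      ∀ a : Fin (n j + 1), f t (update P j (Pi.single a 1)) ∈ S1 K (cf * ∏ l ∈ univ.erase j, b l) := by
  classical
  -- a bound for the coefficients
  obtain ⟨M, hM⟩ : ∃ M : ℕ, ∀ (t : Fin k) (a : ∀ i, Fin (n i + 1)) (φ : K →+* ℂ),
      ‖φ (f t fun i => Pi.single (a i) 1)‖ ≤ M := by
    have h1 : (Set.range fun p : Fin k × (∀ i, Fin (n i + 1)) × (K →+* ℂ) =>
        ‖p.2.2 (f p.1 fun i => Pi.single (p.2.1 i) 1)‖).Finite := Set.finite_range _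
    obtain ⟨M, hM⟩ := h1.bddAbove
    obtain ⟨N, hN⟩ := exists_nat_ge M
    exact ⟨N, fun t a φ => (hM ⟨(t, a, φ), rfl⟩).trans hN⟩
  refine ⟨Fintype.card (∀ i, Fin (n i + 1)) * M + 1, by omega, fun t j b P hP a => ?_⟩
  have hone : ∀ a' : Fin (n j + 1), IsIntegral ℤ ((Pi.single a (1 : K) : Fin (n j + 1) → K) a') := by
    intro a'
    rcases eq_or_ne a' a with rfl | h
    · rw [Pi.single_eq_same]
      exact isIntegral_one
    · rw [Pi.single_eq_of_ne h]
      exact isIntegral_zero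
  constructor
  · refine frm_integral _ _ (hf t) fun i a' => ?_
    rcases eq_or_ne i j with rfl | hij
    · rw [update_self]
      exact hone a'
    · rw [update_of_ne hij]
      exact (mem_QQ hP hij a').1
  · intro φ
    have h1 := frm_bound (f t) (update P j (Pi.single a 1)) φ M (update (fun l => (b l : ℝ)) j 1)
      (Nat.cast_nonneg M) (fun a => hM t a φ) (by
        intro i a'
        rcases eq_or_ne i j with rfl | hij
        · rw [update_self, update_self]
          rcases eq_or_ne a' a with rfl | h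
          · rw [Pi.single_eq_same, map_one, norm_one]
          · rw [Pi.single_eq_of_ne h, map_zero, norm_zero]
            exact zero_le_one
        · rw [update_of_ne hij, update_of_ne hij]
          exact (mem_QQ hP hij a').2 φ)
    have h2 : ∏ i, update (fun l => (b l : ℝ)) j 1 i = ∏ l ∈ univ.erase j, (b l : ℝ) := by
      rw [← mul_prod_erase _ _ (mem_univ j), update_self, one_mul]
      refine prod_congr rfl fun l hl => ?_
      rw [update_of_ne (ne_of_mem_erase hl)]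
    rw [h2] at h1
    refine h1.trans ?_
    push_cast
    refine mul_le_mul_of_nonneg_right ?_ (by positivity)
    linarith

lemma toLinearMap_sum {k : ℕ} (f : Fin k → Frm K n) (μ : Fin k → K) (P : Tup K n) (j : ι) :
    (∑ t, μ t • f t).toLinearMap P j = ∑ t, μ t • lin f P j t := by
  refine LinearMap.ext fun x => ?_
  rw [LinearMap.sum_apply]
  simp only [lin, MultilinearMap.toLinearMap_apply, MultilinearMap.sum_apply,
    MultilinearMap.smul_apply, LinearMap.smul_apply]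

lemma TT_sub (hCR : S_CR) {k : ℕ} (f : Fin k → Frm K n)
    (hf : ∀ t, ∀ a : ∀ i, Fin (n i + 1), IsIntegral ℤ (f t fun i => Pi.single (a i) 1)) :
    ∃ c cf : ℕ, 1 ≤ c ∧ 1 ≤ cf ∧ ∀ (e : ℕ) (j : ι) (b : ι → ℕ), 1 ≤ e → (∀ l, 1 ≤ b l) →
      ∀ P ∈ TT f e j b, ∃ μ ∈ bx K k (c * (cf * ∏ l ∈ univ.erase j, b l) ^ (k - e)), μ ≠ 0 ∧
        P ∈ WW (∑ t, μ t • f t) j b := by
  classical
  obtain ⟨c, hc, hcr⟩ := hCR K k
  obtain ⟨cf, hcf, hco⟩ := coef_mem f hf
  refine ⟨c, cf, hc, hcf, fun e j b he hb P hP => ?_⟩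
  unfold TT at hP
  rw [mem_filter] at hP
  obtain ⟨hQ, hr⟩ := hP
  set w : Fin k → Fin (n j + 1) → K := fun t a => f t (update P j (Pi.single a 1)) with hw
  have hB : 1 ≤ cf * ∏ l ∈ univ.erase j, b l := by
    have h1 : 1 ≤ ∏ l ∈ univ.erase j, b l := one_le_prod' fun l _ => hb l
    exact one_le_mul hcf h1
  set L := LinearEquiv.piRing K K (Fin (n j + 1)) K with hL
  have hLw : ∀ t, L (lin f P j t) = w t := by
    intro t
    funext a
    rfl
  have hrange : Submodule.span K (Set.range w) =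
      (Submodule.span K (Set.range (lin f P j))).map (L : _ →ₗ[K] _) := by
    rw [Submodule.map_span]
    congr 1
    ext x
    constructor
    · rintro ⟨t, rfl⟩
      exact ⟨lin f P j t, ⟨t, rfl⟩, hLw t⟩
    · rintro ⟨_, ⟨t, rfl⟩, rfl⟩
      exact ⟨t, (hLw t).symm⟩
  have hfr : Module.finrank K (Submodule.span K (Set.range w)) + e = k := by
    rw [hrange, LinearEquiv.finrank_map_eq]
    exact hr
  obtain ⟨μ, hμ0, hμ, hsum⟩ := hcr (n j + 1) (cf * ∏ l ∈ univ.erase j, b l) e hB he w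
    (fun t => mem_bx.2 fun a => hco t j b P hQ a) hfr
  refine ⟨μ, hμ, hμ0, ?_⟩
  unfold WW
  rw [mem_filter]
  refine ⟨hQ, ?_⟩
  rw [toLinearMap_sum]
  apply L.injective
  rw [map_zero, map_sum, ← hsum]
  refine sum_congr rfl fun t _ => ?_
  rw [map_smul, hLw]

lemma bx_card (hDB : S_DB) (k : ℕ) {C : ℕ} (hC : 1 ≤ C) :
    ((bx K k C).card : ℝ) ≤ (3 * C) ^ (dg K * k) * ((bx K k 1).card : ℝ) := by
  classical
  have h1 := hDB K k ⊤ k (by rw [finrank_top, Module.finrank_fin_fun]) C 1 le_rfl hC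
  have e1 : ∀ b : ℕ, (bx K k b).filter (· ∈ (⊤ : Submodule K (Fin k → K))) = bx K k b := fun b =>
    filter_true_of_mem fun x _ => Submodule.mem_top
  rw [e1, e1] at h1
  simpa using h1

end

/-- **the bound for `TT`** -/
theorem tb (hGB : S_GB) (hCR : S_CR) (hDB : S_DB) : S_TB := by
  intro K _ _ ι _ _ n k f hs hk hn hf hrk δ hδ
  classical
  obtain ⟨c, cf, hc, hcf, hTT⟩ := TT_sub hCR f hf
  set s : ℕ := Fintype.card ι with hsd
  -- the bounds for `WW`
  have hG : ∀ e : ℕ, ∃ C : ℝ, 0 ≤ C ∧ (1 ≤ e → e ≤ k → ∀ μ : Fin k → K, μ ≠ 0 → ∀ (j i : ι), i ≠ j →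
      ∀ b : ι → ℕ, (∀ l, 1 ≤ b l) →
      ((WW (∑ t, μ t • f t) j b).card : ℝ) * (b i : ℝ) ^ (dg K * e) ≤
        C * (∏ l ∈ univ.erase j, (b l : ℝ) ^ (dg K * (n l + 1 - (k + k * (k - e))))) *
          (∏ l ∈ univ.erase j, (b l : ℝ)) ^ δ) := by
    intro e
    by_cases he : 1 ≤ e ∧ e ≤ k
    · obtain ⟨he1, hek⟩ := he
      obtain ⟨q, hq⟩ := Nat.exists_eq_add_of_le hek
      obtain ⟨e', he'⟩ := Nat.exists_eq_add_of_le he1
      obtain ⟨s', hs'⟩ := Nat.exists_eq_add_of_le hs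
      obtain ⟨C, hC, h⟩ := hGB K ι n (k ^ 2 + 1) (k + k * (k - e)) e hs (by
          have h1 : k - e = q := by omega
          rw [h1, hq, he']
          nlinarith [Nat.zero_le (q * e'), Nat.zero_le (e' * e')]) (fun i => by
          have h1 := hn i
          have h2 : k - e = q := by omega
          have h3 : Fintype.card ι - 1 = 1 + s' := by omega
          have h4 : k ^ 2 * (1 + s') ≤ n i := by
            have : s - 1 = 1 + s' := by omega
            rw [← this]
            exact h1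
          rw [h2, h3]
          have h5 : (k + k * q) * (1 + s') + e ≤ k ^ 2 * (1 + s') + 1 := by
            rw [hq, he']
            nlinarith [Nat.zero_le (q * e'), Nat.zero_le (e' * e'), Nat.zero_le (q * e' * s'),
              Nat.zero_le (e' * e' * s'), Nat.zero_le (e' * s')]
          omega) δ hδ
      exact ⟨C, hC, fun _ _ μ hμ j i hij b hb => h _ (hrk μ hμ) j i hij b hb⟩
    · exact ⟨0, le_rfl, fun h1 h2 => absurd ⟨h1, h2⟩ he⟩
  choose Ce hCe0 hCe using hG
  set CG : ℝ := ∑ e ∈ Icc 1 k, Ce e with hCG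
  have hCG0 : 0 ≤ CG := sum_nonneg fun e _ => hCe0 e
  set A : ℝ := (3 * c : ℝ) ^ (dg K * k) * (cf : ℝ) ^ (k * (dg K * k)) * ((bx K k 1).card : ℝ) with hA
  have hA0 : 0 ≤ A := by positivity
  refine ⟨A * CG, by positivity, fun e he1 hek j i hij b hb => ?_⟩
  have hb' : ∀ l, (1 : ℝ) ≤ b l := fun l => by exact_mod_cast hb l
  have hb0 : ∀ l, (0 : ℝ) < b l := fun l => lt_of_lt_of_le one_pos (hb' l)
  set X : ℝ := ∏ l ∈ univ.erase j, (b l : ℝ) with hX
  have hX0 : 0 < X := prod_pos fun l _ => hb0 l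
  set Cc : ℕ := c * (cf * ∏ l ∈ univ.erase j, b l) ^ (k - e) with hCc
  have hCc1 : 1 ≤ Cc := by
    have h1 : 1 ≤ ∏ l ∈ univ.erase j, b l := one_le_prod' fun l _ => hb l
    exact one_le_mul hc (one_le_pow₀ (one_le_mul hcf h1))
  -- the union bound
  have hsub : TT f e j b ⊆ ((bx K k Cc).filter (· ≠ 0)).biUnion fun μ => WW (∑ t, μ t • f t) j b := by
    intro P hP
    obtain ⟨μ, hμ, hμ0, hPW⟩ := hTT e j b he1 hb P hP
    exact mem_biUnion.2 ⟨μ, mem_filter.2 ⟨hμ, hμ0⟩, hPW⟩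
  set W : ℝ := CG * (∏ l ∈ univ.erase j, (b l : ℝ) ^ (dg K * (n l + 1 - (k + k * (k - e))))) * X ^ δ with hW
  have hW0 : 0 ≤ W := by positivity
  have hbi : (0 : ℝ) ≤ (b i : ℝ) ^ (dg K * e) := by positivity
  have h1 : ((TT f e j b).card : ℝ) * (b i : ℝ) ^ (dg K * e) ≤ ((bx K k Cc).card : ℝ) * W := by
    have h2 : ((TT f e j b).card : ℝ) ≤
        ∑ μ ∈ (bx K k Cc).filter (· ≠ 0), ((WW (∑ t, μ t • f t) j b).card : ℝ) := by
      have := (card_le_card hsub).trans card_biUnion_le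
      exact_mod_cast this
    calc ((TT f e j b).card : ℝ) * (b i : ℝ) ^ (dg K * e) ≤
        (∑ μ ∈ (bx K k Cc).filter (· ≠ 0), ((WW (∑ t, μ t • f t) j b).card : ℝ)) *
          (b i : ℝ) ^ (dg K * e) := mul_le_mul_of_nonneg_right h2 hbi
      _ = ∑ μ ∈ (bx K k Cc).filter (· ≠ 0), ((WW (∑ t, μ t • f t) j b).card : ℝ) *
          (b i : ℝ) ^ (dg K * e) := by rw [sum_mul]
      _ ≤ ∑ μ ∈ (bx K k Cc).filter (· ≠ 0), W := by
          refine sum_le_sum fun μ hμ => ?_
          have h3 := hCe e he1 hek μ (mem_filter.1 hμ).2 j i hij b hb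
          refine h3.trans ?_
          rw [hW]
          have h4 : Ce e ≤ CG := single_le_sum (f := Ce) (fun e _ => hCe0 e) (mem_Icc.2 ⟨he1, hek⟩)
          gcongr
      _ = (((bx K k Cc).filter (· ≠ 0)).card : ℝ) * W := by rw [sum_const, nsmul_eq_mul]
      _ ≤ _ := by
          refine mul_le_mul_of_nonneg_right ?_ hW0
          exact_mod_cast card_le_card (filter_subset _ _)
  -- the number of the relations
  have h2 : ((bx K k Cc).card : ℝ) ≤ A * ∏ l ∈ univ.erase j, (b l : ℝ) ^ (dg K * (k * (k - e))) := by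
    refine (bx_card hDB k hCc1).trans ?_
    have e1 : (Cc : ℝ) = c * (cf * X) ^ (k - e) := by
      rw [hCc, hX]
      push_cast
      rfl
    have e2 : (3 * (Cc : ℝ)) ^ (dg K * k) =
        (3 * c : ℝ) ^ (dg K * k) * (cf : ℝ) ^ ((k - e) * (dg K * k)) * X ^ ((k - e) * (dg K * k)) := by
      rw [e1, ← mul_assoc, mul_pow, ← pow_mul, mul_pow (cf : ℝ) X, ← mul_assoc]
    have e3 : ∏ l ∈ univ.erase j, (b l : ℝ) ^ (dg K * (k * (k - e))) = X ^ ((k - e) * (dg K * k)) := by
      rw [prod_pow, ← hX]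
      congr 1
      ring
    rw [e2, e3, hA]
    have h3 : (cf : ℝ) ^ ((k - e) * (dg K * k)) ≤ (cf : ℝ) ^ (k * (dg K * k)) := by
      refine pow_le_pow_right₀ (by exact_mod_cast hcf) ?_
      exact Nat.mul_le_mul_right _ (Nat.sub_le k e)
    have h4 : (3 * c : ℝ) ^ (dg K * k) * (cf : ℝ) ^ ((k - e) * (dg K * k)) * X ^ ((k - e) * (dg K * k)) *
        ((bx K k 1).card : ℝ) = (3 * c : ℝ) ^ (dg K * k) * X ^ ((k - e) * (dg K * k)) *
        ((bx K k 1).card : ℝ) * (cf : ℝ) ^ ((k - e) * (dg K * k)) := by ring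
    rw [h4]
    calc (3 * c : ℝ) ^ (dg K * k) * X ^ ((k - e) * (dg K * k)) *
        ((bx K k 1).card : ℝ) * (cf : ℝ) ^ ((k - e) * (dg K * k)) ≤
        (3 * c : ℝ) ^ (dg K * k) * X ^ ((k - e) * (dg K * k)) *
        ((bx K k 1).card : ℝ) * (cf : ℝ) ^ (k * (dg K * k)) :=
          mul_le_mul_of_nonneg_left h3 (by positivity)
      _ = _ := by ring
  refine h1.trans ((mul_le_mul_of_nonneg_right h2 hW0).trans (le_of_eq ?_))
  have e4 : (∏ l ∈ univ.erase j, (b l : ℝ) ^ (dg K * (k * (k - e)))) *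
      (∏ l ∈ univ.erase j, (b l : ℝ) ^ (dg K * (n l + 1 - (k + k * (k - e))))) =
      ∏ l ∈ univ.erase j, (b l : ℝ) ^ (dg K * (n l + 1 - k)) := by
    rw [← prod_mul_distrib]
    refine prod_congr rfl fun l _ => ?_
    rw [← pow_add, ← mul_add]
    congr 2
    have h5 : k + k * (k - e) ≤ n l + 1 := by
      have h6 : k ^ 2 ≤ n l := by
        have h7 := hn l
        have h8 : 1 ≤ s - 1 := by omega
        nlinarith [Nat.mul_le_mul_left (k ^ 2) h8]
      have h9 : k * (k - e) ≤ k * (k - 1) := Nat.mul_le_mul_left k (by omega)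
      have h10 : k + k * (k - 1) = k ^ 2 := by
        obtain ⟨k', rfl⟩ := Nat.exists_eq_add_of_le hk
        have : 1 + k' - 1 = k' := by omega
        rw [this]
        ring
      omega
    omega
  rw [hW, ← e4]
  ring

end Pool.Agent.Q24.MM
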